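import Mathlib
import Pool.Graph.R_seed8.H591R2.ThreeSq

/-!
# Four pentagonal-type terms with nonnegative arguments

Every integer `n ≥ 0` other than `1` and `19` (in particular every integer `n > 51`) is of the form
`w(5w-1)/2 + x(5x-1)/2 + y(5y+1)/2 + z(5z+1)/2` with `w, x, y, z ≥ 0`.

Proof. Put `2 n = 5 a + b`. If `b` is odd and `a = x₁² + ... + x₄²`, `b = x₁ + ... + x₄`, then
`n = ∑ x_i (5 x_i + 1) / 2`; two of the `x_i` should be `≥ 0` and two of them `≤ 0`. Choose `b` odd, `|b| ≤ 125`, such that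
`25` divides `4 a - b²` (this is a congruence for `b` modulo `125` which is always solvable). Then
`4 a - b² = 25 N` with `N = 3 (mod 8)`, so `N = u² + v² + t²` with odd `u ≥ v ≥ t > 0`, and
`25 N = (4u + 3v)² + (3u - 4v)² + (5t)²`, where `(4u + 3v) - |3u - 4v| - 5t ≥ u ≥ √(N/3) ≥ 125 ≥ |b|` for
`n ≥ 742250`; this inequality gives the signs of the `x_i = (b ± (4u+3v) ± (3u-4v) ± 5t) / 4`.
The smaller `n` are checked by a computation with bit masks.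
-/

set_option autoImplicit false

namespace Pool.Agent.Results.MP_a2b463_nt.AllButTwo

/-! ### The numbers below `742250` -/

/-- the bit mask of the set `{s + f i : s ∈ S, i < k}` -/
def orS (S : ℕ) (f : ℕ → ℕ) : ℕ → ℕ
  | 0 => 0
  | k + 1 => orS S f k ||| (S <<< f k)

theorem testBit_orS (S : ℕ) (f : ℕ → ℕ) (k n : ℕ) (h : (orS S f k).testBit n = true) :
    ∃ i < k, f i ≤ n ∧ S.testBit (n - f i) = true := by
  induction k with
  | zero => simp [orS] at h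
  | succ k ih =>
    rw [orS, Nat.testBit_or, Bool.or_eq_true] at h
    rcases h with h | h
    · obtain ⟨i, h1, h2⟩ := ih h
      exact ⟨i, by omega, h2⟩
    · rw [Nat.testBit_shiftLeft, Bool.and_eq_true, decide_eq_true_eq] at h
      exact ⟨k, by omega, h.1, h.2⟩

def A (w : ℕ) : ℕ := w * (5 * w - 1) / 2
def B (y : ℕ) : ℕ := y * (5 * y + 1) / 2

/-- the bit mask of a set of represented numbers -/
def mask : ℕ := orS (orS (orS (orS 1 B 545) A 545) A 545) B 545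

theorem mask_check : (mask ||| (2 ||| 2 ^ 19)) % 2 ^ 742250 = 2 ^ 742250 - 1 := by
  decide +kernel

theorem mask_bit (n : ℕ) (hn : n < 742250) (h1 : n ≠ 1) (h19 : n ≠ 19) : mask.testBit n = true := by
  have h := congrArg (fun m => m.testBit n) mask_check
  simp only [Nat.testBit_mod_two_pow, hn, Nat.testBit_two_pow_sub_one, Nat.testBit_or, decide_true,
    Bool.true_and, Bool.or_eq_true] at h
  rcases h with h | h | h
  · exact h
  · exfalso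
    have : (2 : ℕ) = 2 ^ 1 := rfl
    rw [this, Nat.testBit_two_pow] at h
    simp at h
    omega
  · exfalso
    rw [Nat.testBit_two_pow] at h
    simp at h
    omega

theorem small (n : ℕ) (hn : n < 742250) (h1 : n ≠ 1) (h19 : n ≠ 19) :
    ∃ w x y z : ℕ, n = A w + A x + B y + B z := by
  have h := mask_bit n hn h1 h19
  unfold mask at h
  obtain ⟨z, -, hz, h⟩ := testBit_orS _ _ _ _ h
  obtain ⟨x, -, hx, h⟩ := testBit_orS _ _ _ _ h
  obtain ⟨w, -, hw, h⟩ := testBit_orS _ _ _ _ h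
  obtain ⟨y, -, hy, h⟩ := testBit_orS _ _ _ _ h
  rw [show (1 : ℕ) = 2 ^ 0 from rfl, Nat.testBit_two_pow, decide_eq_true_eq] at h
  exact ⟨w, x, y, z, by omega⟩

theorem le_A (w : ℕ) : 2 * w ≤ A w := by
  unfold A
  rw [Nat.le_div_iff_mul_le (by norm_num)]
  rcases Nat.eq_zero_or_pos w with h | h
  · subst h; simp
  · rw [mul_comm 2 w, mul_assoc]
    exact Nat.mul_le_mul_left _ (by omega)

theorem le_B (w : ℕ) : 2 * w ≤ B w := by
  unfold B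
  rw [Nat.le_div_iff_mul_le (by norm_num)]
  rcases Nat.eq_zero_or_pos w with h | h
  · subst h; simp
  · rw [mul_comm 2 w, mul_assoc]
    exact Nat.mul_le_mul_left _ (by omega)

theorem check : ∀ w < 10, ∀ x < 10, ∀ y < 10, ∀ z < 10, A w + A x + B y + B z ≠ 1 ∧
    A w + A x + B y + B z ≠ 19 := by
  decide +kernel

theorem not_small (w x y z : ℕ) (h : A w + A x + B y + B z = 1 ∨ A w + A x + B y + B z = 19) : False := by
  have h1 := le_A w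
  have h2 := le_A x
  have h3 := le_B y
  have h4 := le_B z
  have h5 := check w (by omega) x (by omega) y (by omega) z (by omega)
  omega

/-! ### The large numbers -/

/-- `m (5 m + 1) / 2` -/
def q (m : ℤ) : ℤ := m * (5 * m + 1) / 2

theorem two_q (m : ℤ) : 2 * q m = m * (5 * m + 1) := by
  unfold q
  have : 2 ∣ m * (5 * m + 1) := by
    rcases Int.even_or_odd m with ⟨k, hk⟩ | ⟨k, hk⟩
    · exact Dvd.dvd.mul_right ⟨k, by omega⟩ _
    · exact Dvd.dvd.mul_left ⟨5 * k + 3, by omega⟩ _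
  exact Int.mul_ediv_cancel' this

theorem exists_b : ∀ r : Fin 125, ∃ b ∈ Finset.Icc (-125 : ℤ) 125, b % 2 = 1 ∧
    (5 * b ^ 2 + 4 * b - 8 * (r : ℤ)) % 125 = 0 := by
  decide +kernel

/-- sorted absolute values of three integers with a given sum of squares -/
theorem sorted (N x y z : ℤ) (h : x ^ 2 + y ^ 2 + z ^ 2 = N) :
    ∃ u v t : ℤ, u ^ 2 + v ^ 2 + t ^ 2 = N ∧ 0 ≤ t ∧ t ≤ v ∧ v ≤ u := by
  have hx := abs_nonneg x
  have hy := abs_nonneg y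
  have hz := abs_nonneg z
  have h' : |x| ^ 2 + |y| ^ 2 + |z| ^ 2 = N := by simpa [sq_abs] using h
  rcases le_total |x| |y| with h1 | h1 <;> rcases le_total |y| |z| with h2 | h2 <;>
    rcases le_total |x| |z| with h3 | h3
  · exact ⟨|z|, |y|, |x|, by linarith, hx, h1, h2⟩
  · exact ⟨|z|, |y|, |x|, by linarith, hx, h1, h2⟩
  · exact ⟨|y|, |z|, |x|, by linarith, hx, h3, h2⟩
  · exact ⟨|y|, |x|, |z|, by linarith, hz, h3, h1⟩
  · exact ⟨|z|, |x|, |y|, by linarith, hy, h1, h3⟩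
  · exact ⟨|x|, |z|, |y|, by linarith, hy, h2, h3⟩
  · exact ⟨|x|, |y|, |z|, by linarith, hz, h2, h1⟩
  · exact ⟨|x|, |y|, |z|, by linarith, hz, h2, h1⟩

theorem odd_of_sq (u v t : ℤ) (h : (u ^ 2 + v ^ 2 + t ^ 2) % 4 = 3) :
    u % 2 = 1 ∧ v % 2 = 1 ∧ t % 2 = 1 := by
  have key : ∀ m : ℤ, (m % 2 = 0 ∧ m ^ 2 % 4 = 0) ∨ (m % 2 = 1 ∧ m ^ 2 % 4 = 1) := by
    intro m
    rcases Int.even_or_odd m with ⟨k, hk⟩ | ⟨k, hk⟩
    · left
      refine ⟨by omega, ?_⟩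
      have : m ^ 2 = 4 * k ^ 2 := by rw [hk]; ring
      omega
    · right
      refine ⟨by omega, ?_⟩
      have : m ^ 2 = 4 * (k ^ 2 + k) + 1 := by rw [hk]; ring
      omega
  rcases key u with ⟨a1, a2⟩ | ⟨a1, a2⟩ <;> rcases key v with ⟨b1, b2⟩ | ⟨b1, b2⟩ <;>
    rcases key t with ⟨c1, c2⟩ | ⟨c1, c2⟩ <;> omega

theorem sign_T (b u v t : ℤ) (hb : b % 2 = 1) (hu : u % 2 = 1) (hv : v % 2 = 1) (ht : t % 2 = 1) (h0 : 0 ≤ t) :
    ∃ T : ℤ, T ^ 2 = 25 * t ^ 2 ∧ T ≤ 5 * t ∧ -(5 * t) ≤ T ∧ T % 2 = 1 ∧ (b + 7 * u - v + T) % 4 = 0 := by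
  rcases (by omega : (b + 7 * u - v + 5 * t) % 4 = 0 ∨ (b + 7 * u - v - 5 * t) % 4 = 0) with h | h
  · exact ⟨5 * t, by ring, le_refl _, by omega, by omega, h⟩
  · exact ⟨-(5 * t), by ring, by omega, le_refl _, by omega, by omega⟩

theorem build (b u v t : ℤ) (hb : b % 2 = 1) (hu : u % 2 = 1) (hv : v % 2 = 1) (ht : t % 2 = 1)
    (h0 : 0 ≤ t) (htv : t ≤ v) (hvu : v ≤ u) (hb1 : b ≤ u) (hb2 : -u ≤ b) :
    ∃ x1 x2 x3 x4 : ℤ, 0 ≤ x1 ∧ 0 ≤ x2 ∧ x3 ≤ 0 ∧ x4 ≤ 0 ∧ x1 + x2 + x3 + x4 = b ∧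
      4 * (x1 ^ 2 + x2 ^ 2 + x3 ^ 2 + x4 ^ 2) = b ^ 2 + 25 * (u ^ 2 + v ^ 2 + t ^ 2) := by
  obtain ⟨T, hT, hT1, hT2, hT3, hT4⟩ := sign_T b u v t hb hu hv ht h0
  obtain ⟨x1, hx1⟩ : ∃ x1, b + 7 * u - v + T = 4 * x1 := ⟨_, (Int.mul_ediv_cancel' (by omega)).symm⟩
  obtain ⟨x2, hx2⟩ : ∃ x2, b + u + 7 * v - T = 4 * x2 := ⟨_, (Int.mul_ediv_cancel' (by omega)).symm⟩
  obtain ⟨x3, hx3⟩ : ∃ x3, b - u - 7 * v - T = 4 * x3 := ⟨_, (Int.mul_ediv_cancel' (by omega)).symm⟩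
  obtain ⟨x4, hx4⟩ : ∃ x4, b - 7 * u + v + T = 4 * x4 := ⟨_, (Int.mul_ediv_cancel' (by omega)).symm⟩
  refine ⟨x1, x2, x3, x4, by omega, by omega, by omega, by omega, by omega, ?_⟩
  have e : 4 * (4 * (x1 ^ 2 + x2 ^ 2 + x3 ^ 2 + x4 ^ 2)) =
      (4 * x1) ^ 2 + (4 * x2) ^ 2 + (4 * x3) ^ 2 + (4 * x4) ^ 2 := by ring
  rw [← hx1, ← hx2, ← hx3, ← hx4] at e
  have e2 : (b + 7 * u - v + T) ^ 2 + (b + u + 7 * v - T) ^ 2 + (b - u - 7 * v - T) ^ 2 + (b - 7 * u + v + T) ^ 2 =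
      4 * (b ^ 2 + 25 * (u ^ 2 + v ^ 2) + T ^ 2) := by ring
  rw [e2, hT] at e
  linarith

theorem odd_sq (b : ℤ) (hb : b % 2 = 1) : b ^ 2 % 8 = 1 := by
  obtain ⟨k, hk⟩ : ∃ k, b = 2 * k + 1 := ⟨b / 2, by omega⟩
  have h1 : b ^ 2 = 4 * (k * (k + 1)) + 1 := by rw [hk]; ring
  have h2 : Even (k * (k + 1)) := Int.even_mul_succ_self k
  obtain ⟨j, hj⟩ := h2
  omega

theorem choose_b' (n : ℤ) : ∃ b : ℤ, b % 2 = 1 ∧ -125 ≤ b ∧ b ≤ 125 ∧ (125 : ℤ) ∣ 8 * n - 4 * b - 5 * b ^ 2 := by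
  obtain ⟨b, hb, hb2, hb3⟩ := exists_b ⟨(n % 125).toNat, by omega⟩
  rw [Finset.mem_Icc] at hb
  have hr : (((n % 125).toNat : ℕ) : ℤ) = n % 125 := Int.toNat_of_nonneg (by omega)
  simp only [hr] at hb3
  refine ⟨b, hb2, hb.1, hb.2, ?_⟩
  clear hb hb2 hr
  generalize b ^ 2 = s at *
  omega

theorem choose_b (n : ℤ) (hn : 742250 ≤ n) : ∃ a b c : ℤ, b % 2 = 1 ∧ -125 ≤ b ∧ b ≤ 125 ∧ 2 * n = 5 * a + b ∧
    4 * a = b ^ 2 + 25 * c ∧ 46875 ≤ c ∧ c % 8 = 3 := by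
  obtain ⟨b, hb, h1, h2, c, hc⟩ := choose_b' n
  have hbsq : b ^ 2 ≤ 125 ^ 2 := sq_le_sq' h1 h2
  have hbsq8 := odd_sq b hb
  generalize hs : b ^ 2 = s at *
  obtain ⟨a, ha⟩ : (5 : ℤ) ∣ 2 * n - b := by omega
  have h3 : 4 * a = s + 25 * c := by linarith
  have h4 : 46875 ≤ c := by linarith
  have h5 : c % 8 = 3 := by
    clear hc hs hbsq h4
    omega
  exact ⟨a, b, c, hb, h1, h2, by linarith, by rw [hs]; exact h3, h4, h5⟩

theorem ge_125 (u v t c : ℤ) (h : u ^ 2 + v ^ 2 + t ^ 2 = c) (hc : 46875 ≤ c) (h0 : 0 ≤ t) (htv : t ≤ v)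
    (hvu : v ≤ u) : 125 ≤ u := by
  by_contra hcon
  have hu' : u ≤ 124 := by omega
  have e1 : u ^ 2 ≤ 124 ^ 2 := sq_le_sq' (by omega) hu'
  have e2 : v ^ 2 ≤ 124 ^ 2 := sq_le_sq' (by omega) (by omega)
  have e3 : t ^ 2 ≤ 124 ^ 2 := sq_le_sq' (by omega) (by omega)
  omega

theorem large (n : ℤ) (hn : 742250 ≤ n) : ∃ w x y z : ℤ, 0 ≤ w ∧ 0 ≤ x ∧ 0 ≤ y ∧ 0 ≤ z ∧
    n = q (-w) + q (-x) + q y + q z := by
  obtain ⟨a, b, c, hb2, hb3, hb4, hab, hc, hcpos, hc8⟩ := choose_b n hn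
  obtain ⟨x0, y0, z0, h0⟩ := Pool.Agent.H591R2.three_squares (m := c.toNat) (by omega)
  rw [Int.toNat_of_nonneg (by omega)] at h0
  obtain ⟨u, v, t, h1, ht, htv, hvu⟩ := sorted c x0 y0 z0 h0
  obtain ⟨hu2, hv2, ht2⟩ := odd_of_sq u v t (by rw [h1]; omega)
  have hu := ge_125 u v t c h1 hcpos ht htv hvu
  obtain ⟨x1, x2, x3, x4, p1, p2, p3, p4, hsum, hsq⟩ :=
    build b u v t hb2 hu2 hv2 ht2 ht htv hvu (by omega) (by omega)
  rw [h1, ← hc] at hsq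
  refine ⟨-x3, -x4, x1, x2, by omega, by omega, by omega, by omega, ?_⟩
  have e1 := two_q x1
  have e2 := two_q x2
  have e3 := two_q x3
  have e4 := two_q x4
  rw [neg_neg, neg_neg]
  have h5 : 2 * n = 2 * (q x3 + q x4 + q x1 + q x2) := by
    rw [hab, ← hsum]
    linarith
  linarith

/-- **Theorem.** An integer `n` is of the form
`w (5 w - 1) / 2 + x (5 x - 1) / 2 + y (5 y + 1) / 2 + z (5 z + 1) / 2` with `w, x, y, z ∈ {0, 1, 2, ...}` if and only if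
`n ≥ 0`, `n ≠ 1` and `n ≠ 19`. In particular every integer `n > 51` is represented. -/
theorem result (n : ℤ) :
    (∃ w x y z : ℕ, n = (w : ℤ) * (5 * w - 1) / 2 + (x : ℤ) * (5 * x - 1) / 2 + (y : ℤ) * (5 * y + 1) / 2 +
      (z : ℤ) * (5 * z + 1) / 2) ↔ 0 ≤ n ∧ n ≠ 1 ∧ n ≠ 19 := by
  have key : ∀ w : ℕ, ((A w : ℕ) : ℤ) = (w : ℤ) * (5 * w - 1) / 2 := by
    intro w
    unfold A
    rcases Nat.eq_zero_or_pos w with h | h
    · subst h; rfl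
    · push_cast [Nat.cast_sub (show 1 ≤ 5 * w by omega)]
      rfl
  have keyB : ∀ y : ℕ, ((B y : ℕ) : ℤ) = (y : ℤ) * (5 * y + 1) / 2 := by
    intro y
    unfold B
    push_cast
    rfl
  constructor
  · rintro ⟨w, x, y, z, h⟩
    rw [← key w, ← key x, ← keyB y, ← keyB z] at h
    refine ⟨by omega, ?_, ?_⟩
    · rintro rfl
      exact not_small w x y z (Or.inl (by exact_mod_cast h.symm))
    · rintro rfl
      exact not_small w x y z (Or.inr (by exact_mod_cast h.symm))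
  · rintro ⟨h0, h1, h19⟩
    rcases lt_or_ge n 742250 with hn | hn
    · obtain ⟨w, x, y, z, h⟩ := small n.toNat (by omega) (by omega) (by omega)
      refine ⟨w, x, y, z, ?_⟩
      rw [← key w, ← key x, ← keyB y, ← keyB z]
      omega
    · obtain ⟨w, x, y, z, hw, hx, hy, hz, h⟩ := large n hn
      refine ⟨w.toNat, x.toNat, y.toNat, z.toNat, ?_⟩
      rw [Int.toNat_of_nonneg hw, Int.toNat_of_nonneg hx, Int.toNat_of_nonneg hy, Int.toNat_of_nonneg hz, h]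
      unfold q
      congr 1
      congr 1
      congr 1
      · congr 1; ring
      · congr 1; ring

end Pool.Agent.Results.MP_a2b463_nt.AllButTwo
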